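import Mathlib
import Pool.Agent.P.MP_8707bd_ag.All.Defs

/-!
Monic pairs, reachable jets and the Frobenius step (helper file only).
-/

namespace Pool.Agent.P.MP_8707bd_ag.KV

open MvPolynomial All

variable {K : Type} [CommRing K] {ι : Type}

/-- All exponents have degree less than `e`. -/
def Low (e : ℕ) (F : MvPolynomial (Fin 2) K) : Prop := ∀ s ∈ F.support, s 0 + s 1 < e

/-- Vanishing to order `n i` at `P i`. -/
def Van (P : ι → Fin 2 → K) (n : ι → ℕ) (F : MvPolynomial (Fin 2) K) : Prop :=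
  ∀ i, F ∈ RingHom.ker (eval (P i)) ^ n i

/-- The monomial with exponent `t` plus terms of lower degree. -/
def Lead (t : Fin 2 →₀ ℕ) (F : MvPolynomial (Fin 2) K) : Prop :=
  Low (t 0 + t 1) (F - monomial t 1)

/-- There are two members of the system whose top forms are the pure powers of degree `a`. -/
def MP (P : ι → Fin 2 → K) (a : ℕ) (n : ι → ℕ) : Prop :=
  ∀ c : Fin 2, ∃ F, Lead (Finsupp.single c a) F ∧ Van P n F

/-- Polynomials of degree less than `e` realise all jets of order less than `n i` at `P i`. -/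
def Reach (P : ι → Fin 2 → K) (n : ι → ℕ) (e : ℕ) : Prop :=
  ∀ f : MvPolynomial (Fin 2) K, ∃ g, Low e g ∧ Van P n (f - g)

lemma deg_two (s : Fin 2 →₀ ℕ) : s.degree = s 0 + s 1 := by
  rw [Finsupp.degree_eq_sum, Fin.sum_univ_two]

lemma low_iff {e : ℕ} {F : MvPolynomial (Fin 2) K} :
    Low e F ↔ ∀ s : Fin 2 →₀ ℕ, e ≤ s 0 + s 1 → F.coeff s = 0 := by
  refine ⟨fun h s hs => ?_, fun h s hs => ?_⟩
  · by_contra h1
    exact absurd (h s (mem_support_iff.2 h1)) (not_lt.2 hs)
  · by_contra h1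
    exact mem_support_iff.1 hs (h s (not_lt.1 h1))

lemma Low.mono {e e' : ℕ} {F : MvPolynomial (Fin 2) K} (h : Low e F) (h' : e ≤ e') : Low e' F :=
  fun s hs => (h s hs).trans_le h'

lemma low_zero (e : ℕ) : Low e (0 : MvPolynomial (Fin 2) K) := fun s hs => by simp at hs

lemma Low.add {e : ℕ} {F G : MvPolynomial (Fin 2) K} (hF : Low e F) (hG : Low e G) :
    Low e (F + G) := low_iff.2 fun s hs => by
  rw [coeff_add, low_iff.1 hF s hs, low_iff.1 hG s hs, add_zero]

lemma Low.smul {e : ℕ} {F : MvPolynomial (Fin 2) K} (hF : Low e F) (c : K) : Low e (c • F) :=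
  low_iff.2 fun s hs => by rw [coeff_smul, low_iff.1 hF s hs, smul_zero]

lemma Low.neg {e : ℕ} {F : MvPolynomial (Fin 2) K} (hF : Low e F) : Low e (-F) :=
  low_iff.2 fun s hs => by rw [coeff_neg, low_iff.1 hF s hs, neg_zero]

lemma low_monomial {e : ℕ} {t : Fin 2 →₀ ℕ} (h : t 0 + t 1 < e) (c : K) :
    Low e (monomial t c) := fun s hs => by
  rw [Finset.mem_singleton.1 (support_monomial_subset hs)]
  exact h

lemma Low.mul {e e' : ℕ} {F G : MvPolynomial (Fin 2) K} (hF : Low e F) (hG : Low (e' + 1) G) :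
    Low (e + e') (F * G) := fun s hs => by
  classical
  obtain ⟨u, hu, v, hv, rfl⟩ := Finset.mem_add.1 (support_mul F G hs)
  have h1 := hF u hu
  have h2 := hG v hv
  simp only [Finsupp.add_apply]
  omega

lemma lead_monomial (t : Fin 2 →₀ ℕ) : Lead t (monomial t (1 : K)) := by
  rw [Lead, sub_self]
  exact low_zero _

lemma Lead.mul {s t : Fin 2 →₀ ℕ} {F G : MvPolynomial (Fin 2) K} (hF : Lead s F)
    (hG : Lead t G) : Lead (s + t) (F * G) := by
  have h1 : Low (t 0 + t 1 + 1) G := by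
    have := (Low.mono hG (Nat.le_succ _)).add (low_monomial (Nat.lt_succ_self _) (1 : K))
    rwa [sub_add_cancel] at this
  have h2 := Low.mul hF h1
  have h3 := Low.mul hG (low_monomial (Nat.lt_succ_self (s 0 + s 1)) (1 : K))
  have h4 : F * G - monomial (s + t) 1 =
      (F - monomial s 1) * G + (G - monomial t 1) * monomial s 1 := by
    rw [← one_mul (1 : K), ← monomial_mul, one_mul]
    ring
  rw [Lead, h4]
  simp only [Finsupp.add_apply]
  exact (h2.mono (by omega)).add (h3.mono (by omega))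

lemma Lead.pow {t : Fin 2 →₀ ℕ} {F : MvPolynomial (Fin 2) K} (hF : Lead t F) (j : ℕ) :
    Lead (j • t) (F ^ j) := by
  induction j with
  | zero => simpa using lead_monomial (K := K) 0
  | succ j ih => rw [succ_nsmul, pow_succ]; exact ih.mul hF

variable {P : ι → Fin 2 → K}

lemma Van.mono {n n' : ι → ℕ} {F : MvPolynomial (Fin 2) K} (h : Van P n F) (h' : ∀ i, n' i ≤ n i) :
    Van P n' F := fun i => Ideal.pow_le_pow_right (h' i) (h i)

lemma Van.mul {n n' : ι → ℕ} {F G : MvPolynomial (Fin 2) K} (hF : Van P n F) (hG : Van P n' G) :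
    Van P (fun i => n i + n' i) (F * G) := fun i => by
  rw [pow_add]
  exact Ideal.mul_mem_mul (hF i) (hG i)

lemma Van.pow {n : ι → ℕ} {F : MvPolynomial (Fin 2) K} (hF : Van P n F) (j : ℕ) :
    Van P (fun i => j * n i) (F ^ j) := fun i => by
  change F ^ j ∈ _ ^ (j * n i)
  rw [mul_comm, pow_mul]
  exact Ideal.pow_mem_pow (hF i) j

lemma MP.add {a a' : ℕ} {n n' : ι → ℕ} (h : MP P a n) (h' : MP P a' n') :
    MP P (a + a') fun i => n i + n' i := fun c => by
  obtain ⟨F, h1, h2⟩ := h c
  obtain ⟨G, h3, h4⟩ := h' c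
  exact ⟨F * G, by rw [Finsupp.single_add]; exact h1.mul h3, h2.mul h4⟩

lemma MP.nsmul {a : ℕ} {n : ι → ℕ} (h : MP P a n) (j : ℕ) : MP P (j * a) fun i => j * n i :=
  fun c => by
  obtain ⟨F, h1, h2⟩ := h c
  refine ⟨F ^ j, ?_, h2.pow j⟩
  have := h1.pow j
  rwa [Finsupp.smul_single, smul_eq_mul] at this

lemma Reach.mono {n n' : ι → ℕ} {e e' : ℕ} (h : Reach P n e) (hn : ∀ i, n' i ≤ n i)
    (he : e ≤ e') : Reach P n' e' := fun f => by
  obtain ⟨g, h1, h2⟩ := h f
  exact ⟨g, h1.mono he, h2.mono hn⟩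

/-- Division by products of the two monic members. -/
theorem MP.reach {a : ℕ} {n : ι → ℕ} (h : MP P a n) (j : ℕ) :
    Reach P (fun i => j * n i) ((j + 1) * a) := by
  obtain ⟨G0, h0, v0⟩ := h 0
  obtain ⟨G1, h1, v1⟩ := h 1
  have key : ∀ (e : ℕ) (f : MvPolynomial (Fin 2) K), Low e f →
      ∃ g, Low ((j + 1) * a) g ∧ Van P (fun i => j * n i) (f - g) := by
    intro e
    induction e with
    | zero => exact fun f hf => ⟨f, hf.mono (Nat.zero_le _), fun i => by simp⟩
    | succ e ih =>
      intro f hf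
      rw [f.as_sum]
      refine Finset.sum_induction _ (fun f => ∃ g, Low ((j + 1) * a) g ∧
        Van P (fun i => j * n i) (f - g)) ?_ ⟨0, low_zero _, fun i => by simp⟩ fun s hs => ?_
      · rintro f f' ⟨g, a1, a2⟩ ⟨g', b1, b2⟩
        refine ⟨g + g', a1.add b1, fun i => ?_⟩
        rw [add_sub_add_comm]
        exact add_mem (a2 i) (b2 i)
      by_cases h2 : s 0 + s 1 < (j + 1) * a
      · exact ⟨_, low_monomial h2 (coeff s f), fun i => by simp⟩
      obtain ⟨α, β, hj, hα, hβ⟩ : ∃ α β, α + β = j ∧ α * a ≤ s 0 ∧ β * a ≤ s 1 := by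
        rcases Nat.eq_zero_or_pos a with rfl | ha
        · exact ⟨0, j, by simp, by simp, by simp⟩
        rcases le_total j (s 0 / a) with h3 | h3
        · exact ⟨j, 0, rfl, (Nat.le_div_iff_mul_le ha).1 h3, by simp⟩
        · obtain ⟨β, rfl⟩ := Nat.exists_eq_add_of_le h3
          refine ⟨s 0 / a, β, rfl, Nat.div_mul_le_self _ _, ?_⟩
          have := Nat.lt_mul_div_succ (s 0) ha
          nlinarith
      have ht : α • Finsupp.single (0 : Fin 2) a + β • Finsupp.single (1 : Fin 2) a ≤ s := by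
        intro c
        fin_cases c
        · simpa using hα
        · simpa using hβ
      have hl := (lead_monomial (K := K) (s - (α • Finsupp.single (0 : Fin 2) a +
        β • Finsupp.single (1 : Fin 2) a))).mul ((h0.pow α).mul (h1.pow β))
      rw [tsub_add_cancel_of_le ht] at hl
      have hv : Van P (fun i => j * n i) (G0 ^ α * G1 ^ β) :=
        ((v0.pow α).mul (v1.pow β)).mono fun i => by rw [← hj, add_mul]
      obtain ⟨g, hg1, hg2⟩ := ih _
        ((Low.mono hl (Nat.lt_succ_iff.1 (hf s hs))).smul (coeff s f)).neg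
      refine ⟨g, hg1, fun i => ?_⟩
      have h5 := add_mem (Ideal.mul_mem_left _ (C (coeff s f)) (Ideal.mul_mem_left _
        (monomial (s - (α • Finsupp.single (0 : Fin 2) a + β • Finsupp.single (1 : Fin 2) a)) 1)
        (hv i))) (hg2 i)
      rw [smul_eq_C_mul, mul_sub, C_mul_monomial, mul_one] at h5
      rwa [neg_sub, ← add_sub_assoc, add_sub_cancel] at h5
  exact fun f => key (f.support.sup (fun s => s 0 + s 1) + 1) f fun s hs =>
    Nat.lt_succ_of_le (Finset.le_sup (f := fun s : Fin 2 →₀ ℕ => s 0 + s 1) hs)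

/-- The component of `X 0 ^ (p - 1) * X 1 ^ (p - 1)` over the ring of `p`-th powers of the
variables. -/
noncomputable def comp (p : ℕ) : MvPolynomial (Fin 2) K →ₗ[K] MvPolynomial (Fin 2) K :=
  (basisMonomials (Fin 2) K).constr K fun u =>
    if u 0 % p = p - 1 ∧ u 1 % p = p - 1 then monomial (u.mapRange (· / p) (Nat.zero_div p)) 1
    else 0

lemma comp_monomial (p : ℕ) (u : Fin 2 →₀ ℕ) (c : K) : comp p (monomial u c) =
    if u 0 % p = p - 1 ∧ u 1 % p = p - 1 then monomial (u.mapRange (· / p) (Nat.zero_div p)) c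
    else 0 := by
  have h1 : (monomial u c : MvPolynomial (Fin 2) K) = c • basisMonomials (Fin 2) K u := by
    rw [coe_basisMonomials, smul_monomial, smul_eq_mul, mul_one]
  rw [h1, map_smul, comp, Module.Basis.constr_basis]
  split_ifs
  · rw [smul_monomial, smul_eq_mul, mul_one]
  · exact smul_zero _

lemma comp_expand {p : ℕ} (hp : 0 < p) (G F : MvPolynomial (Fin 2) K) :
    comp p (expand p G * F) = G * comp p F := by
  induction G using MvPolynomial.induction_on' with
  | add G G' h h' => rw [map_add, add_mul, map_add, h, h', add_mul]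
  | monomial v a =>
    induction F using MvPolynomial.induction_on' with
    | add F F' h h' => rw [mul_add, map_add, h, h', map_add, mul_add]
    | monomial u b =>
      rw [expand_monomial, monomial_mul, comp_monomial, comp_monomial]
      simp only [Finsupp.add_apply, Finsupp.smul_apply, smul_eq_mul, Nat.mul_add_mod]
      split_ifs
      · rw [monomial_mul]
        congr 2
        ext c
        simp only [Finsupp.mapRange_apply, Finsupp.add_apply, Finsupp.smul_apply, smul_eq_mul]
        rw [Nat.mul_add_div hp]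
      · exact (mul_zero _).symm

lemma comp_low {p E d : ℕ} (hp : 0 < p) (hE : E + 2 ≤ p * (d + 3)) {g : MvPolynomial (Fin 2) K}
    (hg : Low E g) : Low (d + 1) (comp p g) := by
  rw [g.as_sum, map_sum]
  refine Finset.sum_induction _ (Low (d + 1)) (fun _ _ => Low.add) (low_zero _) fun u hu => ?_
  rw [comp_monomial]
  split_ifs with h
  · refine low_monomial ?_ _
    simp only [Finsupp.mapRange_apply]
    have h1 := hg u hu
    have h2 := Nat.div_add_mod (u 0) p
    have h3 := Nat.div_add_mod (u 1) p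
    refine Nat.lt_of_mul_lt_mul_left (a := p) ?_
    rw [mul_add p (u 0 / p)]
    have h4 : p * (d + 3) = p * (d + 1) + 2 * p := by ring
    omega
  · exact low_zero _

lemma comp_van {p : ℕ} [Fact p.Prime] [CharP K p] {q : Fin 2 → K} {N m : ℕ}
    (hN : p * (m + 1) ≤ N + 1) {F : MvPolynomial (Fin 2) K} (hF : F ∈ RingHom.ker (eval q) ^ N) :
    comp p F ∈ RingHom.ker (eval fun c => q c ^ p) ^ m := by
  have hp : 0 < p := (Fact.out : p.Prime).pos
  have h1 : F = tr (-q) (tr q F) := by rw [tr_tr, neg_add_cancel, tr_zero]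
  rw [h1, (tr q F).as_sum, map_sum, map_sum]
  refine Ideal.sum_mem _ fun s hs => ?_
  have h2 : N ≤ s 0 + s 1 := by
    by_contra h3
    exact mem_support_iff.1 hs ((van_iff q N F).1 hF s (by rw [deg_two]; omega))
  have h3 : ∀ c : Fin 2, (X c + C (-q c) : MvPolynomial (Fin 2) K) ^ s c =
      expand p ((X c - C (q c ^ p)) ^ (s c / p)) * (X c + C (-q c)) ^ (s c % p) := by
    intro c
    rw [map_pow, map_sub, expand_X, expand_C, map_pow, ← sub_pow_char, map_neg, ← sub_eq_add_neg,
      ← pow_mul, ← pow_add, Nat.div_add_mod]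
  have h4 : tr (-q) (monomial s (coeff s (tr q F))) =
      expand p ((X 0 - C (q 0 ^ p)) ^ (s 0 / p) * (X 1 - C (q 1 ^ p)) ^ (s 1 / p)) *
        (C (coeff s (tr q F)) * (X 0 + C (-q 0)) ^ (s 0 % p) * (X 1 + C (-q 1)) ^ (s 1 % p)) := by
    rw [tr, aeval_monomial, Finsupp.prod_fintype _ _ fun _ => pow_zero _, Fin.prod_univ_two]
    simp only [Pi.neg_apply, algebraMap_eq]
    rw [h3 0, h3 1, map_mul]
    ring
  have h5 : ∀ c : Fin 2, (X c - C (q c ^ p) : MvPolynomial (Fin 2) K) ∈
      RingHom.ker (eval fun c => q c ^ p) := fun c => by simp [RingHom.mem_ker]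
  have h6 : m ≤ s 0 / p + s 1 / p := by
    have a1 := Nat.div_add_mod (s 0) p
    have a2 := Nat.div_add_mod (s 1) p
    have a3 := Nat.mod_lt (s 0) hp
    have a4 := Nat.mod_lt (s 1) hp
    have a5 : p * (m + 1) < p * (s 0 / p + s 1 / p + 2) := by
      rw [mul_add p (s 0 / p + s 1 / p), mul_add p (s 0 / p)]
      omega
    have := Nat.lt_of_mul_lt_mul_left a5
    omega
  rw [h4, comp_expand hp]
  refine Ideal.mul_mem_right _ _ (Ideal.pow_le_pow_right h6 ?_)
  rw [pow_add]
  exact Ideal.mul_mem_mul (Ideal.pow_mem_pow (h5 0) _) (Ideal.pow_mem_pow (h5 1) _)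

/-- The Frobenius step. -/
theorem Reach.frob {p : ℕ} [Fact p.Prime] [CharP K p] {N m : ι → ℕ} {E d : ℕ} (h : Reach P N E)
    (hN : ∀ i, p * (m i + 1) ≤ N i + 1) (hE : E + 2 ≤ p * (d + 3)) :
    Reach (fun i c => P i c ^ p) m (d + 1) := fun f => by
  have hp : 0 < p := (Fact.out : p.Prime).pos
  obtain ⟨g, h1, h2⟩ := h (expand p f *
    monomial (Finsupp.single 0 (p - 1) + Finsupp.single 1 (p - 1)) 1)
  refine ⟨comp p g, comp_low hp hE h1, fun i => ?_⟩
  have h3 := comp_van (hN i) (h2 i)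
  have h4 : p - 1 < p := by omega
  rw [map_sub, comp_expand hp, comp_monomial, if_pos (by simp [Nat.mod_eq_of_lt h4])] at h3
  have h5 : (Finsupp.single (0 : Fin 2) (p - 1) + Finsupp.single 1 (p - 1)).mapRange (· / p)
      (Nat.zero_div p) = 0 := by
    ext c
    fin_cases c <;> simp [Nat.div_eq_of_lt h4]
  rwa [h5, monomial_zero', map_one, mul_one] at h3

end Pool.Agent.P.MP_8707bd_ag.KV
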