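import Mathlib
import Pool.Agent.P.MP_8707bd_ag.KV.Core
import Pool.Agent.P.MP_8707bd_ag.Ex.Gen
import Pool.Agent.P.MP_8707bd_ag.Ex.Lower

/-!
Dimension count and the filter of general configurations (helper file only).
-/

namespace Pool.Agent.P.MP_8707bd_ag.KV

open MvPolynomial All Win Ex

variable {ι : Type} [Fintype ι]

omit [Fintype ι] in
lemma coprime_count {P : ι → Fin 2 → ℂ} (hP : Function.Injective P) (m : ι → ℕ) :
    Pairwise (Function.onFun IsCoprime fun i => RingHom.ker (eval (P i)) ^ m i) := by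
  intro i j hij
  refine IsCoprime.pow ?_
  obtain ⟨c, hc⟩ := Function.ne_iff.1 (hP.ne hij)
  have h1 : P j c - P i c ≠ 0 := sub_ne_zero.2 hc.symm
  refine Ideal.isCoprime_iff_exists.2 ⟨C (P j c - P i c)⁻¹ * (X c - C (P i c)), ?_,
    C (P j c - P i c)⁻¹ * (C (P j c) - X c), ?_, ?_⟩
  · simp [RingHom.mem_ker]
  · simp [RingHom.mem_ker]
  · rw [← mul_add, show X c - C (P i c) + (C (P j c) - X c) = C (P j c) - C (P i c) by ring,
      ← map_sub, ← map_mul, inv_mul_cancel₀ h1, map_one]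

/-- The Taylor map from all polynomials to `(Σ i, triF (m i)) → ℂ` is onto for distinct points
(`Ideal.exists_forall_sub_mem_ideal`, powers of distinct maximal ideals are coprime; the target
at `P i` is `tr (-P i)` of the prescribed polynomial). By `Reach` its restriction to
`restrictSupport ℂ (tri e)` is onto; the kernel is `sys (tri e) P m`; rank-nullity and
`card_triF`. -/
theorem rank_of_reach {P : ι → Fin 2 → ℂ} (hP : Function.Injective P) {m : ι → ℕ} {e : ℕ}
    (h : Reach P m e) :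
    Module.finrank ℂ (sys (tri e) P m) + ∑ i, (m i + 1).choose 2 = (e + 1).choose 2 := by
  classical
  let T : MvPolynomial (Fin 2) ℂ →ₗ[ℂ] (Σ i : ι, Lower.triF (m i)) → ℂ :=
    LinearMap.pi fun x => lcoeff ℂ x.2.1 ∘ₗ (tr (P x.1)).toLinearMap
  have hT : ∀ F x, T F x = (tr (P x.1) F).coeff x.2.1 := fun _ _ => rfl
  have h1 : ∀ F, T F = 0 ↔ Van P m F := fun F => by
    refine ⟨fun h0 i => (van_iff _ _ _).2 fun s hs => ?_, fun h0 => funext fun x => ?_⟩
    · exact congrFun h0 ⟨i, s, Lower.mem_triF.2 (deg_two s ▸ hs)⟩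
    · exact (van_iff _ _ _).1 (h0 x.1) _ (deg_two _ ▸ Lower.mem_triF.1 x.2.2)
  have h2 : Function.Surjective (T.domRestrict (restrictSupport ℂ (tri e))) := fun y => by
    obtain ⟨f, hf⟩ := Ideal.exists_forall_sub_mem_ideal (coprime_count hP m) fun i =>
      tr (-P i) (∑ s : Lower.triF (m i), monomial s.1 (y ⟨i, s⟩))
    obtain ⟨g, h3, h4⟩ := h f
    refine ⟨⟨g, h3⟩, ?_⟩
    have h5 := (h1 _).2 h4
    rw [map_sub, sub_eq_zero] at h5
    change T g = y
    rw [← h5]
    funext ⟨i, s⟩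
    have h6 := (van_iff _ _ _).1 (hf i) s.1 (deg_two _ ▸ Lower.mem_triF.1 s.2)
    rw [map_sub, tr_tr, add_neg_cancel, tr_zero, coeff_sub, sub_eq_zero] at h6
    rw [hT, h6, coeff_sum, Finset.sum_eq_single s]
    · simp
    · intro t _ ht
      rw [coeff_monomial, if_neg fun h7 => ht (Subtype.ext h7)]
    · simp
  have := supp_fin (tri_finite e)
  have h3 := (T.domRestrict (restrictSupport ℂ (tri e))).finrank_range_add_finrank_ker
  have h4 : LinearMap.ker (T.domRestrict (restrictSupport ℂ (tri e))) =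
      (sys (tri e) P m).comap (restrictSupport ℂ (tri e)).subtype := by
    ext F
    rw [LinearMap.mem_ker, Submodule.mem_comap, mem_sys]
    exact (h1 F.1).trans ⟨fun h0 => ⟨F.2, h0⟩, fun h0 => h0.2⟩
  have := (tri_finite e).fintype
  rw [LinearMap.range_eq_top.2 h2, finrank_top, h4, (Submodule.comapSubtypeEquivOfLe
    (p := sys (tri e) P m) (q := restrictSupport ℂ (tri e)) inf_le_left).finrank_eq,
    Module.finrank_fintype_fun_eq_card, Fintype.card_sigma,
    Module.finrank_eq_card_basis (basisRestrictSupport ℂ (tri e)),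
    ← (tri_finite e).card_toFinset] at h3
  simp only [Fintype.card_coe, Lower.card_triF] at h3
  rw [add_comm, h3]
  exact Lower.card_triF e

/-- The sets which contain a nonempty Zariski open set of configurations. -/
def genF (ι : Type) : Filter (ι → Fin 2 → ℂ) where
  sets := {U | ∃ Φ : MvPolynomial (ι × Fin 2) ℂ, Φ ≠ 0 ∧
    ∀ P : ι → Fin 2 → ℂ, eval (fun x : ι × Fin 2 => P x.1 x.2) Φ ≠ 0 → P ∈ U}
  univ_sets := ⟨1, one_ne_zero, fun _ _ => trivial⟩
  sets_of_superset := fun ⟨Φ, h0, h⟩ hU => ⟨Φ, h0, fun P hP => hU (h P hP)⟩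
  inter_sets := fun ⟨Φ, h0, h⟩ ⟨Ψ, h1, h'⟩ => ⟨Φ * Ψ, mul_ne_zero h0 h1, fun P hP => by
    rw [map_mul] at hP
    exact ⟨h P (left_ne_zero_of_mul hP), h' P (right_ne_zero_of_mul hP)⟩⟩

instance genF_neBot (ι : Type) : (genF ι).NeBot := by
  refine Filter.forall_mem_nonempty_iff_neBot.1 fun U ⟨Φ, h0, h⟩ => ?_
  obtain ⟨P, hP⟩ := exists_pt Φ h0
  exact ⟨P, h P hP⟩

/-- Use `Filter.eventually_all` twice and the polynomial `X (i, 0) - X (j, 0)`. -/
theorem genF_injective : ∀ᶠ P in genF ι, Function.Injective P := by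
  refine Filter.eventually_all.2 fun i => Filter.eventually_all.2 fun j => ?_
  rcases eq_or_ne i j with h | h
  · exact .of_forall fun _ _ => h
  · refine ⟨X (i, 0) - X (j, 0), fun h0 => h (congrArg Prod.fst (X_injective (sub_eq_zero.1 h0))),
      fun P hP h1 => absurd ?_ hP⟩
    simp [h1]

theorem genF_rank {Ω : Set (Fin 2 →₀ ℕ)} (hΩ : Ω.Finite) {μ : ι → ℕ} {e : ℕ} (h : KE Ω μ e) :
    ∀ᶠ P in genF ι, Module.finrank ℂ (sys Ω P μ) ≤ e := gen hΩ h

theorem genF_emp {μ : ι → ℕ} {e : ℕ} (h : KE (tri e) μ 0) : ∀ᶠ P in genF ι, Emp P μ e := by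
  filter_upwards [genF_rank (tri_finite e) h] with P hP F h1 h2
  have := sys_fin (tri_finite e) P μ
  have h3 : sys (tri e) P μ = ⊥ := Submodule.finrank_eq_zero.1 (Nat.le_zero.1 hP)
  refine (Submodule.eq_bot_iff _).1 h3 F (mem_sys.2 ⟨fun s hs => ?_, h2⟩)
  have h4 := (le_totalDegree hs).trans_lt h1
  change s 0 + s 1 < e
  rw [← deg_two]
  exact h4

theorem ke_of_reach {m : ι → ℕ} {e : ℕ} (h : ∀ᶠ P in genF ι, Reach P m e) :
    ∑ i, (m i + 1).choose 2 ≤ (e + 1).choose 2 ∧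
      KE (tri e) m ((e + 1).choose 2 - ∑ i, (m i + 1).choose 2) := by
  obtain ⟨P, h1, h2⟩ := (genF_injective.and h).exists
  have h3 := rank_of_reach h1 h2
  exact ⟨by omega, ke_of_rank (tri_finite e) P m _ (by omega)⟩

end Pool.Agent.P.MP_8707bd_ag.KV
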