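import Mathlib
import Pool.Agent.P.MP_8707bd_ag.KV.Core
import Pool.Agent.P.MP_8707bd_ag.Ex.Lower

/-!
An empty system gives a monic pair in slightly larger degree (helper file only).
-/

namespace Pool.Agent.P.MP_8707bd_ag.KV

open MvPolynomial All Win Ex

variable {ι : Type} [Fintype ι]

lemma der_pair {A : Type} [CommRing A] [Algebra ℂ A] (D : Derivation ℂ A A) (I : Ideal A) {m : ℕ}
    {F : A} (h : F ∈ I ^ m) : D F ∈ I ^ (m - 1) := by
  induction h using Submodule.pow_induction_on_left' with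
  | algebraMap r => simp
  | add x y i hx hy h1 h2 =>
    rw [map_add]
    exact add_mem h1 h2
  | mem_mul x hx i y hy h1 =>
    rw [Derivation.leibniz, smul_eq_mul, smul_eq_mul, Nat.succ_sub_one]
    refine add_mem ?_ (Ideal.mul_mem_right _ _ hy)
    cases i with
    | zero => simp
    | succ i =>
      rw [pow_succ']
      exact Ideal.mul_mem_mul hx h1

lemma app_pair (c : Fin 2) (u v : ℕ) :
    (Finsupp.single c u + Finsupp.single c.rev v : Fin 2 →₀ ℕ) c = u ∧
      (Finsupp.single c u + Finsupp.single c.rev v : Fin 2 →₀ ℕ) c.rev = v := by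
  fin_cases c <;> simp [Fin.rev]

lemma deg_pair (c : Fin 2) (s : Fin 2 →₀ ℕ) : s 0 + s 1 = s c + s c.rev := by
  fin_cases c
  · rfl
  · exact add_comm _ _

lemma eq_pair (c : Fin 2) (s : Fin 2 →₀ ℕ) :
    s = Finsupp.single c (s c) + Finsupp.single c.rev (s c.rev) := by
  ext i
  fin_cases c <;> fin_cases i <;> simp [Fin.rev]

omit [Fintype ι] in
lemma lead_pair {P : ι → Fin 2 → ℂ} (c : Fin 2) (b k : ℕ) :
    ∀ (n : ι → ℕ) (F : MvPolynomial (Fin 2) ℂ), Low (b + k + 1) F →
      (∀ s : Fin 2 →₀ ℕ, s 0 + s 1 = b + k → k < s c.rev → F.coeff s = 0) →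
      F.coeff (Finsupp.single c b + Finsupp.single c.rev k) ≠ 0 → Van P n F →
      ∃ G, Lead (Finsupp.single c b) G ∧ Van P (fun i => n i - k) G := by
  classical
  induction k with
  | zero =>
    intro n F h1 h2 h3 h4
    rw [Finsupp.single_zero, add_zero] at h3
    refine ⟨(F.coeff (Finsupp.single c b))⁻¹ • F, low_iff.2 fun s hs => ?_, fun i => ?_⟩
    · have e1 := app_pair c b 0
      rw [Finsupp.single_zero, add_zero] at e1
      rw [deg_pair c (Finsupp.single c b), e1.1, e1.2] at hs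
      rw [coeff_sub, coeff_smul, coeff_monomial, smul_eq_mul]
      by_cases e2 : Finsupp.single c b = s
      · rw [if_pos e2, ← e2, inv_mul_cancel₀ h3, sub_self]
      · rw [if_neg e2, sub_zero]
        refine mul_eq_zero_of_right _ ?_
        rcases hs.eq_or_lt with e3 | e3
        · refine h2 s e3.symm (Nat.pos_of_ne_zero fun e4 => e2 ?_)
          have e5 := deg_pair c s
          rw [eq_pair c s, e4, Finsupp.single_zero, add_zero, show s c = b by omega]
        · exact low_iff.1 h1 s e3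
    · rw [smul_eq_C_mul]
      exact Ideal.mul_mem_left _ _ (h4 i)
  | succ k ih =>
    intro n F h1 h2 h3 h4
    have e1 : ∀ s : Fin 2 →₀ ℕ, (s + Finsupp.single c.rev 1 : Fin 2 →₀ ℕ) 0 +
        (s + Finsupp.single c.rev 1 : Fin 2 →₀ ℕ) 1 = s 0 + s 1 + 1 ∧
        (s + Finsupp.single c.rev 1 : Fin 2 →₀ ℕ) c.rev = s c.rev + 1 := fun s => by
      fin_cases c <;> simp [Fin.rev] <;> omega
    obtain ⟨G, g1, g2⟩ := ih (fun i => n i - 1) (pderiv c.rev F)
      (low_iff.2 fun s hs => by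
        rw [coeff_pderiv, low_iff.1 h1 _ (by rw [(e1 s).1]; omega), zero_mul])
      (fun s hs hk => by
        rw [coeff_pderiv, h2 _ (by rw [(e1 s).1]; omega) (by rw [(e1 s).2]; omega), zero_mul])
      (by
        rw [coeff_pderiv, add_assoc, ← Finsupp.single_add]
        exact mul_ne_zero h3 (Nat.cast_add_one_ne_zero _))
      (fun i => der_pair _ _ (h4 i))
    exact ⟨G, g1, g2.mono fun i => by omega⟩

lemma supp_pair {J : Type} [Fintype J] (P : ι → Fin 2 → ℂ) (n : ι → ℕ) (ex : J → Fin 2 →₀ ℕ)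
    (hex : Function.Injective ex) (hc : ∑ i, (n i + 1).choose 2 < Fintype.card J) :
    ∃ F : MvPolynomial (Fin 2) ℂ, F ≠ 0 ∧ Van P n F ∧ ∀ s ∈ F.support, s ∈ Set.range ex := by
  classical
  let L : (J → ℂ) →ₗ[ℂ] MvPolynomial (Fin 2) ℂ := ∑ j, monomial (ex j) ∘ₗ LinearMap.proj j
  let M : MvPolynomial (Fin 2) ℂ →ₗ[ℂ] ((Σ i, Lower.triF (n i)) → ℂ) :=
    LinearMap.pi fun x => lcoeff ℂ x.2.1 ∘ₗ (tr (P x.1)).toLinearMap
  have hL : ∀ v s, (L v).coeff s = ∑ j, if ex j = s then v j else 0 := fun v s => by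
    simp [L, coeff_sum, coeff_monomial]
  obtain ⟨v, hv, hv0⟩ := (Submodule.ne_bot_iff _).mp
    (LinearMap.ker_ne_bot_of_finrank_lt (f := M ∘ₗ L) (by
      rw [Module.finrank_fintype_fun_eq_card, Module.finrank_fintype_fun_eq_card,
        Fintype.card_sigma]
      simpa only [Fintype.card_coe, Lower.card_triF] using hc))
  refine ⟨L v, fun h => hv0 (funext fun j => ?_), fun i => (van_iff _ _ _).2 fun s hs => ?_,
    fun s hs => ?_⟩
  · have h1 := hL v (ex j)
    rw [h, coeff_zero] at h1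
    simpa [hex.eq_iff] using h1.symm
  · exact congrFun hv ⟨i, s, Lower.mem_triF.2 (deg_two s ▸ hs)⟩
  · by_contra hn
    refine mem_support_iff.1 hs ?_
    rw [hL]
    exact Finset.sum_eq_zero fun j _ => if_neg fun h => hn ⟨j, h⟩

/-- Let `W e` be the space of `F` with `Low e F` and `Van P n F`.
(1) `finrank (W e) + ∑ (n i + 1).choose 2 ≥ (e + 1).choose 2` (the kernel of the Taylor
coefficients `(tr (P i) F).coeff s`, `s 0 + s 1 < n i`, see `van_iff`; the points need not be
distinct), and `W (e + 1) = ⊥`.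
(2) Suppose that for a degree `a` and a direction `c` (the other direction is `c'`) every
`F ∈ W (a + 1)` whose coefficients of degree `a` vanish for `s c' > γ` lies in `W a`. Then
`finrank (W (a + 1)) ≤ finrank (W a) + (a - γ)`. If this holds for all `e < a ≤ e + T` (with `c`
depending on `a`), summation contradicts (1) and `hc`.
(3) So for some `a` and both `c` there is `F ∈ W (a + 1)` with nonzero part of degree `a`,
supported on `s c' ≤ γ`. Let `k ≤ γ` be the largest `s c'` in that part. The `k`-fold `pderiv c'`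
of `F` vanishes to order `n i - k`, and its part of degree `a - k` is a nonzero multiple of
`X c ^ (a - k)`. Normalise and multiply by `X c ^ k` (`Lead.mul`, `lead_monomial`). -/
theorem mp_of_emp {P : ι → Fin 2 → ℂ} {n : ι → ℕ} {e T γ : ℕ} (h : Emp P n (e + 1))
    (hγ : γ ≤ e) (hc : ∑ i, (n i + 1).choose 2 < (e + 2).choose 2 + (γ + 1) * T) :
    ∃ a, a ≤ e + T ∧ MP P a fun i => n i - γ := by
  classical
  by_contra hn
  have h1 : ∀ a, ∃ c : Fin 2, a ≤ e + T →
      ¬∃ F, Lead (Finsupp.single c a) F ∧ Van P (fun i => n i - γ) F := fun a => by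
    by_contra h2
    push Not at h2
    exact hn ⟨a, (h2 0).1, fun c => (h2 c).2⟩
  choose c hcc using h1
  let ex : Lower.triF (e + 1) ⊕ Fin (γ + 1) × Fin T → Fin 2 →₀ ℕ := Sum.elim (fun s => s.1)
    fun x => Finsupp.single (c (e + 1 + x.2)) (e + 1 + x.2 - x.1) +
      Finsupp.single (c (e + 1 + x.2)).rev (x.1 : ℕ)
  have hl : ∀ s, ex (Sum.inl s) 0 + ex (Sum.inl s) 1 < e + 1 := fun s => Lower.mem_triF.1 s.2
  have hr : ∀ x, ex (Sum.inr x) 0 + ex (Sum.inr x) 1 = e + 1 + x.2 ∧
      ex (Sum.inr x) (c (e + 1 + x.2)).rev = x.1 := fun x => by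
    have h2 := app_pair (c (e + 1 + x.2)) (e + 1 + x.2 - x.1) x.1
    have h3 := x.1.2
    refine ⟨?_, h2.2⟩
    rw [deg_pair (c (e + 1 + x.2))]
    exact (congrArg₂ (· + ·) h2.1 h2.2).trans (by omega)
  have hex : Function.Injective ex := by
    rintro (s | x) (t | y) hst
    · exact congrArg Sum.inl (Subtype.ext hst)
    · have h2 := hl s
      have h3 := (hr y).1
      rw [hst] at h2
      omega
    · have h2 := hl t
      have h3 := (hr x).1
      rw [← hst] at h2
      omega
    · obtain ⟨h2, h3⟩ := hr x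
      obtain ⟨h4, h5⟩ := hr y
      rw [hst] at h2 h3
      have h6 : x.2 = y.2 := Fin.ext (by omega)
      rw [h6, h5] at h3
      exact congrArg Sum.inr (Prod.ext (Fin.ext h3.symm) h6)
  obtain ⟨F, hF0, hFv, hFs⟩ := supp_pair P n ex hex (by
    simpa only [Fintype.card_sum, Fintype.card_coe, Lower.card_triF, Fintype.card_prod,
      Fintype.card_fin] using hc)
  obtain ⟨s₀, hs₀, hmax⟩ := F.support.exists_max_image (fun s => s 0 + s 1)
    (support_nonempty.2 hF0)
  obtain ⟨a, ha⟩ : ∃ a, s₀ 0 + s₀ 1 = a := ⟨_, rfl⟩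
  rw [ha] at hmax
  have hea : e + 1 ≤ a := by
    by_contra h2
    exact hF0 (h F (Nat.lt_succ_of_le (Lower.supp_tri.1 fun s hs =>
      (hmax s hs).trans_lt (not_le.1 h2))) hFv)
  have htop : ∀ s ∈ F.support, s 0 + s 1 = a → a ≤ e + T ∧ s (c a).rev ≤ γ := fun s hs h2 => by
    obtain ⟨t | x, rfl⟩ := hFs s hs
    · have h3 := hl t
      omega
    · obtain ⟨h3, h4⟩ := hr x
      have h5 := x.1.2
      have h6 := x.2.2
      rw [← h2, h3, h4]
      omega
  obtain ⟨s₁, hs₁, hmax₁⟩ := (F.support.filter fun s => s 0 + s 1 = a).exists_max_image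
    (fun s => s (c a).rev) ⟨s₀, Finset.mem_filter.2 ⟨hs₀, ha⟩⟩
  obtain ⟨h2, h3⟩ := Finset.mem_filter.1 hs₁
  have h4 : s₁ (c a) + s₁ (c a).rev = a := (deg_pair _ _).symm.trans h3
  obtain ⟨G, g1, g2⟩ := lead_pair (c a) (s₁ (c a)) (s₁ (c a).rev) n F
    (fun s hs => by rw [h4]; exact Nat.lt_succ_of_le (hmax s hs))
    (fun s hs hk => by
      by_contra h5
      exact absurd (hmax₁ s (Finset.mem_filter.2 ⟨mem_support_iff.2 h5, hs.trans h4⟩))
        (not_le.2 hk))
    (by rw [← eq_pair]; exact mem_support_iff.1 h2) hFv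
  refine hcc a (htop s₁ h2 h3).1 ⟨G * monomial (Finsupp.single (c a) (s₁ (c a).rev)) 1, ?_,
    fun i => Ideal.mul_mem_right _ _ (g2.mono (n' := fun i => n i - γ) (fun i => ?_) i)⟩
  · have h5 := g1.mul (lead_monomial (Finsupp.single (c a) (s₁ (c a).rev)))
    rwa [← Finsupp.single_add, h4] at h5
  · have h5 := (htop s₁ h2 h3).2
    omega

end Pool.Agent.P.MP_8707bd_ag.KV
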