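import Mathlib
import Pool.Agent.P.MP_8707bd_ag.KV.Core

/-!
Reduction to positive characteristic (helper file only).
-/

namespace Pool.Agent.P.MP_8707bd_ag.KV

open MvPolynomial All

/-- Take `B = Algebra.adjoin ℤ (S ∪ {(N !)⁻¹})`, a maximal ideal `𝔪` and `K = B ⧸ 𝔪`. The field `K`
is of finite type over the Jacobson ring `ℤ`, hence a finite `ℤ`-module
(`finite_of_finite_type_of_isJacobsonRing`), so its characteristic is a prime `p` (otherwise the
inverse of `2` would be integral over `ℤ`), and `N !` is invertible in `K`, so `N < p`. -/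
theorem exists_char (S : Finset ℂ) (N : ℕ) :
    ∃ (B : Subring ℂ) (K : Type) (_ : Field K) (p : ℕ) (_ : Fact p.Prime) (_ : CharP K p)
      (_ : B →+* K), (∀ x ∈ S, x ∈ B) ∧ N < p := by
  classical
  let A := Algebra.adjoin ℤ (insert ((N.factorial : ℂ))⁻¹ (S : Set ℂ))
  have hA : Algebra.FiniteType ℤ A := .adjoin_of_finite (S.finite_toSet.insert _)
  obtain ⟨M, hM⟩ := Ideal.exists_maximal A
  let _ : Field (A ⧸ M) := Ideal.Quotient.field M
  have hJ : IsJacobsonRing ℤ := isJacobsonRing_iff_prime_eq.2 fun I hI => by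
    by_cases h : I = ⊥
    · rw [h, eq_bot_iff]
      intro x hx
      rcases Int.isUnit_iff.1 (Ideal.mem_jacobson_bot.1 hx x) with h1 | h1
      · exact mul_self_eq_zero.1 (by linarith)
      · nlinarith [mul_self_nonneg x]
    · have := IsPrime.to_maximal_ideal h
      exact Ideal.jacobson_eq_self_of_isMaximal
  have hF : Module.Finite ℤ (A ⧸ M) := finite_of_finite_type_of_isJacobsonRing ℤ (A ⧸ M)
  have hp : (ringChar (A ⧸ M)).Prime := by
    rcases CharP.char_is_prime_or_zero (A ⧸ M) (ringChar (A ⧸ M)) with h | h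
    · exact h
    · have : CharZero (A ⧸ M) := (CharP.ringChar_zero_iff_CharZero _).1 h
      exact absurd ((Algebra.IsIntegral.isField_iff_isField
        (algebraMap ℤ (A ⧸ M)).injective_int).2 (Field.toIsField _)) Int.not_isField
  refine ⟨A.toSubring, A ⧸ M, inferInstance, ringChar (A ⧸ M), ⟨hp⟩, inferInstance,
    Ideal.Quotient.mk M, fun x hx => Algebra.subset_adjoin (Set.mem_insert_of_mem _ hx), ?_⟩
  by_contra h
  have h1 : ((N.factorial : ℕ) : A ⧸ M) = 0 :=
    (CharP.cast_eq_zero_iff _ (ringChar (A ⧸ M)) _).2 (Nat.dvd_factorial hp.pos (not_lt.1 h))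
  have h2 : ((N.factorial : ℕ) : A) *
      ⟨(N.factorial : ℂ)⁻¹, Algebra.subset_adjoin (Set.mem_insert _ _)⟩ = 1 := by
    refine Subtype.ext ?_
    have h3 : (N.factorial : ℂ) ≠ 0 := Nat.cast_ne_zero.2 N.factorial_ne_zero
    simpa using mul_inv_cancel₀ h3
  have h4 := congrArg (Ideal.Quotient.mk M) h2
  rw [map_mul, map_natCast, h1, zero_mul, map_one] at h4
  exact zero_ne_one h4

lemma tr_map_spread {σ A B : Type} [CommRing A] [CommRing B] (f : A →+* B) (q : σ → A)
    (F : MvPolynomial σ A) :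
    MvPolynomial.map f (tr q F) = tr (fun k => f (q k)) (MvPolynomial.map f F) := by
  induction F using MvPolynomial.induction_on with
  | C a => simp [tr]
  | add p q hp hq => simp [hp, hq]
  | mul_X p k hp =>
    rw [map_mul, map_mul, map_mul, map_mul, hp]
    simp [tr]

/-- The indices of the Taylor coefficients. -/
abbrev Idx_spread {ι : Type} (m : ι → ℕ) : Type :=
  {j : ι × (Fin 2 →₀ ℕ) // j.2.degree < m j.1}

lemma finite_spread {ι : Type} [Finite ι] (m : ι → ℕ) : Finite (Idx_spread m) := by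
  refine Set.Finite.subset (Set.finite_iUnion fun i : ι =>
    (Set.finite_singleton i).prod (Finsupp.finite_of_degree_lt (σ := Fin 2) (m i))) ?_
  intro j hj
  exact Set.mem_iUnion.2 ⟨j.1, rfl, hj⟩

/-- A linear combination of Taylor coefficients. -/
noncomputable def lam_spread {R ι : Type} [CommRing R] {m : ι → ℕ} [Fintype (Idx_spread m)]
    (P : ι → Fin 2 → R) (w : Idx_spread m → R) (F : MvPolynomial (Fin 2) R) : R :=
  ∑ j, (tr (P j.1.1) F).coeff j.1.2 * w j

lemma lam_map_spread {A B ι : Type} [CommRing A] [CommRing B] (f : A →+* B) {m : ι → ℕ}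
    [Fintype (Idx_spread m)] (P : ι → Fin 2 → A) (w : Idx_spread m → A) (t : Fin 2 →₀ ℕ) :
    lam_spread (fun i c => f (P i c)) (fun j => f (w j)) (monomial t 1) =
      f (lam_spread P w (monomial t 1)) := by
  simp only [lam_spread, map_sum, map_mul, ← coeff_map, tr_map_spread, map_monomial, map_one]

lemma lam_sum_spread {R ι : Type} [CommRing R] {m : ι → ℕ} [Fintype (Idx_spread m)]
    (P : ι → Fin 2 → R) (w : Idx_spread m → R) (F : MvPolynomial (Fin 2) R)
    (h : ∀ t ∈ F.support, lam_spread P w (monomial t 1) = 0) : lam_spread P w F = 0 := by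
  have h1 : F = ∑ t ∈ F.support, F.coeff t • monomial t (1 : R) := by
    simp only [smul_monomial, smul_eq_mul, mul_one]
    exact F.as_sum
  have h2 : lam_spread P w F = ∑ t ∈ F.support, F.coeff t * lam_spread P w (monomial t 1) := by
    conv_lhs => rw [h1]
    simp only [lam_spread, map_sum, map_smul, coeff_sum, coeff_smul, smul_eq_mul, Finset.sum_mul,
      Finset.mul_sum, mul_assoc]
    exact Finset.sum_comm
  rw [h2]
  exact Finset.sum_eq_zero fun t ht => by rw [h t ht, mul_zero]

lemma not_reach_spread {R ι : Type} [CommRing R] [Nontrivial R] {m : ι → ℕ}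
    [Fintype (Idx_spread m)] {P : ι → Fin 2 → R} {w : Idx_spread m → R} {e : ℕ}
    {s : Fin 2 →₀ ℕ} (h1 : ∀ t : Fin 2 →₀ ℕ, t 0 + t 1 < e → lam_spread P w (monomial t 1) = 0)
    (h2 : lam_spread P w (monomial s 1) = 1) : ¬ Reach P m e := by
  intro h
  obtain ⟨g, h3, h4⟩ := h (monomial s 1)
  have h5 := lam_sum_spread P w g fun t ht => h1 t (h3 t ht)
  have h6 : lam_spread P w (monomial s 1) = lam_spread P w g := by
    refine Finset.sum_congr rfl fun j _ => ?_
    have h7 := (van_iff _ _ _).1 (h4 j.1.1) j.1.2 j.2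
    rw [map_sub, coeff_sub, sub_eq_zero] at h7
    rw [h7]
  rw [h2, h5] at h6
  exact one_ne_zero h6

lemma obs_spread {K ι : Type} [Field K] {m : ι → ℕ} [Fintype (Idx_spread m)]
    {P : ι → Fin 2 → K} {e : ℕ} (h : ¬ Reach P m e) :
    ∃ (w : Idx_spread m → K) (s : Fin 2 →₀ ℕ),
      (∀ t : Fin 2 →₀ ℕ, t 0 + t 1 < e → lam_spread P w (monomial t 1) = 0) ∧
        lam_spread P w (monomial s 1) = 1 := by
  classical
  let T : MvPolynomial (Fin 2) K →ₗ[K] (Idx_spread m → K) :=
    LinearMap.pi fun j => lcoeff K j.1.2 ∘ₗ (tr (P j.1.1)).toLinearMap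
  let U : Submodule K (MvPolynomial (Fin 2) K) :=
    { carrier := {g | Low e g}
      add_mem' := Low.add
      zero_mem' := low_zero e
      smul_mem' := fun c _ hg => Low.smul hg c }
  obtain ⟨f, hf⟩ := not_forall.1 h
  have h1 : T f ∉ U.map T := by
    rintro ⟨g, hg, hT⟩
    refine hf ⟨g, hg, fun i => (van_iff _ _ _).2 fun s hs => ?_⟩
    rw [map_sub, coeff_sub, sub_eq_zero]
    exact (congrFun hT ⟨(i, s), hs⟩).symm
  obtain ⟨φ, h2, h3⟩ := Submodule.exists_le_ker_of_notMem h1
  have h4 : ∀ (c : K) F, lam_spread P (fun j => c * φ fun k => if j = k then 1 else 0) F =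
      c * φ (T F) := fun c F => by
    rw [LinearMap.pi_apply_eq_sum_univ φ (T F), Finset.mul_sum]
    exact Finset.sum_congr rfl fun j _ => mul_left_comm _ _ _
  obtain ⟨s, hs⟩ : ∃ s, φ (T (monomial s 1)) ≠ 0 := by
    by_contra h5
    have h6 := lam_sum_spread P (fun j => 1 * φ fun k => if j = k then 1 else 0) f fun t _ => by
      rw [h4, not_not.1 (not_exists.1 h5 t), mul_zero]
    rw [h4, one_mul] at h6
    exact h2 h6
  refine ⟨fun j => (φ (T (monomial s 1)))⁻¹ * φ fun k => if j = k then 1 else 0, s,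
    fun t ht => ?_, ?_⟩
  · rw [h4, LinearMap.mem_ker.1 (h3 ⟨_, low_monomial ht 1, rfl⟩), mul_zero]
  · rw [h4, inv_mul_cancel₀ hs]

lemma mp_map_spread {A B C ι : Type} [CommRing A] [CommRing B] [CommRing C] (f : A →+* B)
    (hf : Function.Injective f) (g : A →+* C) {P : ι → Fin 2 → A} {n : ι → ℕ}
    {t : Fin 2 →₀ ℕ} {F : MvPolynomial (Fin 2) A} (h1 : Lead t (MvPolynomial.map f F))
    (h2 : Van (fun i c => f (P i c)) n (MvPolynomial.map f F)) :
    Lead t (MvPolynomial.map g F) ∧ Van (fun i c => g (P i c)) n (MvPolynomial.map g F) := by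
  have h0 : ∀ (G : MvPolynomial (Fin 2) A) s, (MvPolynomial.map f G).coeff s = 0 →
      (MvPolynomial.map g G).coeff s = 0 := fun G s hs => by
    rw [coeff_map, map_eq_zero_iff f hf] at hs
    rw [coeff_map, hs, map_zero]
  refine ⟨low_iff.2 fun s hs => ?_, fun i => (van_iff _ _ _).2 fun s hs => ?_⟩
  · have h3 := h0 (F - monomial t 1) s
    rw [map_sub, map_sub, map_monomial, map_monomial, f.map_one, g.map_one] at h3
    exact h3 (low_iff.1 h1 s hs)
  · have h3 := h0 (tr (P i) F) s
    rw [tr_map_spread, tr_map_spread] at h3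
    exact h3 ((van_iff _ _ _).1 (h2 i) s hs)

lemma num_spread {a d : ℕ} {θ : ℝ} (ha : (a : ℝ) < θ * (d + 3)) : 0 < θ ∧ ∃ N : ℕ, ∀ p : ℕ, N < p →
    (⌈p / θ⌉₊ + 1) * a + 2 ≤ p * (d + 3) := by
  have h0 : 0 < θ :=
    (mul_pos_iff_of_pos_right (by positivity)).1 ((Nat.cast_nonneg a).trans_lt ha)
  have h1 : 0 < (d : ℝ) + 3 - a / θ := by
    rw [sub_pos, div_lt_iff₀' h0]
    exact ha
  obtain ⟨N, hN⟩ := exists_nat_gt ((2 * a + 2) / ((d : ℝ) + 3 - a / θ))
  refine ⟨h0, N, fun p hp => ?_⟩
  have h2 : (N : ℝ) < p := Nat.cast_lt.2 hp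
  have h3 := (div_lt_iff₀ h1).1 (hN.trans h2)
  have h4 := (Nat.ceil_lt_add_one (a := (p : ℝ) / θ) (by positivity)).le
  have h5 := mul_le_mul_of_nonneg_right h4 (Nat.cast_nonneg (α := ℝ) a)
  have h6 : (p : ℝ) / θ * a = p * (a / θ) := by ring
  rw [← Nat.cast_le (α := ℝ)]
  push_cast
  linarith

/-- Vanishing theorem from one monic pair. Suppose not. Then a linear form `lam` on the polynomials
kills all `g` with `Low (d + 1) g` and all `F` with `Van P m F`, and `lam (monomial s₀ 1) = 1` for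
some `s₀`. Since it kills the common kernel of the Taylor coefficients, it is a combination
`∑ w (i, s) * (tr (P i) F).coeff s` over the finitely many `(i, s)` with `s 0 + s 1 < m i`
(`mem_span_of_iInf_ker_le_ker`). Apply `exists_char` to the coordinates of `P`, the coefficients of
the two monic members and the numbers `w`, with `N` so large that
`2 a + 2 ≤ p (d + 3 - a / θ)`. Lift everything to `B` (injectivity of `B.subtype`, `van_iff`,
compatibility of `tr` with `MvPolynomial.map`) and map it to `K` by `φ`: `MP (φ P) a n`. With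
`j = ⌈p / θ⌉₊`, `MP.reach` and `Reach.frob` give `Reach (ψ P) m (d + 1)` for
`ψ = (frobenius K p).comp φ`. The form with coefficients `ψ w` kills the monomials of degree at
most `d` and everything vanishing to order `m`, but not `monomial s₀ 1`: contradiction. -/
theorem reach_of_mp {ι : Type} [Fintype ι] {P : ι → Fin 2 → ℂ} {a d : ℕ} {n m : ι → ℕ}
    (h : MP P a n) {θ : ℝ} (ha : (a : ℝ) < θ * (d + 3)) (hn : ∀ i, θ * (m i + 1) ≤ n i) :
    Reach P m (d + 1) := by
  classical
  by_contra hR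
  have := finite_spread m
  let _ := Fintype.ofFinite (Idx_spread m)
  obtain ⟨w, s, h1, h2⟩ := obs_spread hR
  obtain ⟨h0, N, hN⟩ := num_spread ha
  choose F hF1 hF2 using h
  obtain ⟨B, K, _, p, _, _, φ, hB, hp⟩ := exists_char
    ((Finset.univ.image fun j : ι × Fin 2 => P j.1 j.2) ∪ Finset.univ.image w ∪
      Finset.univ.biUnion fun c => (F c).coeffs) N
  let P' : ι → Fin 2 → B := fun i c => ⟨P i c, hB _ (Finset.mem_union_left _
    (Finset.mem_union_left _ (Finset.mem_image.2 ⟨(i, c), Finset.mem_univ _, rfl⟩)))⟩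
  let w' : Idx_spread m → B := fun j => ⟨w j, hB _ (Finset.mem_union_left _
    (Finset.mem_union_right _ (Finset.mem_image.2 ⟨j, Finset.mem_univ _, rfl⟩)))⟩
  have hMP : MP (fun i c => φ (P' i c)) a n := fun c => by
    obtain ⟨G, hG⟩ : F c ∈ Set.range (MvPolynomial.map B.subtype) :=
      mem_range_map_iff_coeffs_subset.2 fun x hx => ⟨⟨x, hB _ (Finset.mem_union_right _
        (Finset.mem_biUnion.2 ⟨c, Finset.mem_univ _, hx⟩))⟩, rfl⟩
    exact ⟨_, mp_map_spread B.subtype B.subtype_injective φ (P := P') (hG ▸ hF1 c) (hG ▸ hF2 c)⟩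
  have h3 : ∀ i, p * (m i + 1) ≤ ⌈p / θ⌉₊ * n i + 1 := fun i => by
    have h4 := mul_le_mul (Nat.le_ceil ((p : ℝ) / θ)) (hn i) (by positivity) (Nat.cast_nonneg _)
    rw [← mul_assoc, div_mul_cancel₀ _ h0.ne'] at h4
    refine Nat.le_succ_of_le ?_
    exact_mod_cast h4
  have h5 := (hMP.reach ⌈p / θ⌉₊).frob h3 (hN p hp)
  have h6 : ∀ t, B.subtype (lam_spread P' w' (monomial t 1)) = lam_spread P w (monomial t 1) :=
    fun t => (lam_map_spread B.subtype P' w' t).symm
  refine not_reach_spread (P := fun i c => (frobenius K p).comp φ (P' i c))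
    (w := fun j => (frobenius K p).comp φ (w' j)) (s := s) (fun t ht => ?_) ?_ h5
  · rw [lam_map_spread, B.subtype_injective (((h6 t).trans (h1 t ht)).trans (map_zero _).symm),
      map_zero]
  · rw [lam_map_spread, B.subtype_injective (((h6 s).trans h2).trans (map_one _).symm), map_one]

end Pool.Agent.P.MP_8707bd_ag.KV
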