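import Mathlib
import Pool.Agent.P.MP_8707bd_ag.KV.Pair
import Pool.Agent.P.MP_8707bd_ag.KV.Spread
import Pool.Agent.P.MP_8707bd_ag.KV.Count

/-!
The vanishing theorem for real classes which are limits of monic pairs (helper file only).
-/

namespace Pool.Agent.P.MP_8707bd_ag.KV

open MvPolynomial All Win Ex

variable {ι : Type} {𝓕 : Filter (ι → Fin 2 → ℂ)} {D D' : ℝ} {M M' : ι → ℝ}

/-- The real class `(D; M)` is a limit of classes with a monic pair. -/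
def AMP (𝓕 : Filter (ι → Fin 2 → ℂ)) (D : ℝ) (M : ι → ℝ) : Prop :=
  ∀ ε : ℝ, 0 < ε → ∃ (θ : ℝ) (a : ℕ) (n : ι → ℕ), 0 < θ ∧ (a : ℝ) ≤ θ * (D + ε) ∧
    (∀ i, θ * (M i - ε) ≤ n i) ∧ ∀ᶠ P in 𝓕, MP P a n

lemma MP.up {K : Type} [CommRing K] {P : ι → Fin 2 → K} {a a' : ℕ} {n : ι → ℕ} (h : MP P a n)
    (h' : a ≤ a') : MP P a' n := fun c => by
  obtain ⟨F, h1, h2⟩ := h c
  obtain ⟨b, rfl⟩ := Nat.exists_eq_add_of_le h'
  refine ⟨F * monomial (Finsupp.single c b) 1, ?_, fun i => Ideal.mul_mem_right _ _ (h2 i)⟩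
  rw [Finsupp.single_add]
  exact h1.mul (lead_monomial _)

theorem amp_zero (𝓕 : Filter (ι → Fin 2 → ℂ)) : AMP 𝓕 0 fun _ => 0 := fun ε hε =>
  ⟨1, 0, fun _ => 0, one_pos, by simpa using hε.le, fun _ => by simpa using hε.le,
    Filter.Eventually.of_forall fun _ c => ⟨_, lead_monomial _, fun _ => by simp⟩⟩

theorem AMP.mono (h : AMP 𝓕 D M) (hD : D ≤ D') (hM : ∀ i, M' i ≤ M i) : AMP 𝓕 D' M' :=
  fun ε hε => by
  obtain ⟨θ, a, n, h0, h1, h2, h3⟩ := h ε hε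
  exact ⟨θ, a, n, h0, h1.trans (by gcongr), fun i => le_trans (by gcongr; exact hM i) (h2 i), h3⟩

theorem AMP.filter_mono {𝓖 : Filter (ι → Fin 2 → ℂ)} (h : AMP 𝓕 D M) (h' : 𝓖 ≤ 𝓕) :
    AMP 𝓖 D M := fun ε hε => by
  obtain ⟨θ, a, n, h0, h1, h2, h3⟩ := h ε hε
  exact ⟨θ, a, n, h0, h1, h2, h3.filter_mono h'⟩

/-- The set of such classes is closed. -/
theorem AMP.of_approx (h : ∀ ε : ℝ, 0 < ε → AMP 𝓕 (D + ε) fun i => M i - ε) : AMP 𝓕 D M :=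
  fun ε hε => by
  obtain ⟨θ, a, n, h0, h1, h2, h3⟩ := h (ε / 2) (half_pos hε) (ε / 2) (half_pos hε)
  refine ⟨θ, a, n, h0, ?_, fun i => ?_, h3⟩
  · rwa [add_assoc, add_halves] at h1
  · have := h2 i
    rwa [sub_sub, add_halves] at this

theorem AMP.smul (h : AMP 𝓕 D M) {c : ℝ} (hc : 0 ≤ c) : AMP 𝓕 (c * D) fun i => c * M i := by
  rcases hc.eq_or_lt with rfl | hc
  · simpa using amp_zero 𝓕
  intro ε hε
  obtain ⟨θ, a, n, h0, h1, h2, h3⟩ := h (ε / c) (div_pos hε hc)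
  refine ⟨θ / c, a, n, div_pos h0 hc, h1.trans_eq ?_, fun i => le_of_eq_of_le ?_ (h2 i), h3⟩
  · field_simp
  · field_simp

theorem AMP.add (h : AMP 𝓕 D M) (h' : AMP 𝓕 D' M') : AMP 𝓕 (D + D') fun i => M i + M' i := by
  intro ε hε
  have hε3 : 0 < ε / 3 := by positivity
  obtain ⟨θ, a, n, h0, h1, h2, h3⟩ := h _ hε3
  obtain ⟨θ', a', n', g0, g1, g2, g3⟩ := h' _ hε3
  obtain ⟨j, hj⟩ := exists_nat_gt ((a' : ℝ) / (θ * (ε / 3)))
  have hj0 : (0 : ℝ) < j := lt_of_le_of_lt (by positivity) hj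
  rw [div_lt_iff₀ (by positivity)] at hj
  have hx : 0 ≤ j * θ / θ' := by positivity
  have b1 := Nat.le_ceil (j * θ / θ')
  have b2 := (Nat.ceil_lt_add_one hx).le
  have b3 : j * θ / θ' * θ' = j * θ := by field_simp
  refine ⟨j * θ, j * a + ⌈j * θ / θ'⌉₊ * a', fun i => j * n i + ⌈j * θ / θ'⌉₊ * n' i,
    by positivity, ?_, fun i => ?_, ?_⟩
  · push_cast
    have c1 : (j : ℝ) * a ≤ j * (θ * (D + ε / 3)) := by gcongr
    have c2 : (⌈j * θ / θ'⌉₊ : ℝ) * a' ≤ (j * θ / θ' + 1) * a' := by gcongr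
    have c3 : j * θ / θ' * a' ≤ j * θ / θ' * (θ' * (D' + ε / 3)) := by gcongr
    rw [← mul_assoc, b3] at c3
    nlinarith
  · push_cast
    have c1 : (j : ℝ) * (θ * (M i - ε / 3)) ≤ j * n i := by gcongr; exact h2 i
    have c2 : j * θ / θ' * n' i ≤ (⌈j * θ / θ'⌉₊ : ℝ) * n' i := by gcongr
    have c3 : j * θ / θ' * (θ' * (M' i - ε / 3)) ≤ j * θ / θ' * n' i := by gcongr; exact g2 i
    rw [← mul_assoc, b3] at c3
    have c4 : 0 < j * θ * ε := by positivity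
    nlinarith
  · filter_upwards [h3, g3] with P k1 k2
    exact (k1.nsmul j).add (k2.nsmul _)

lemma cast_choose (n : ℕ) : 2 * (((n + 1).choose 2 : ℕ) : ℝ) = n * (n + 1) := by
  rw [Nat.cast_choose_two]
  push_cast
  ring

variable [Fintype ι]

/-- Emptiness arbitrarily close to a class of nonnegative square. -/
theorem amp_of_near (hD : 0 < D) (hM : ∀ i, 0 ≤ M i) (hsq : ∑ i, M i ^ 2 ≤ D ^ 2)
    (H : ∀ ε : ℝ, 0 < ε → ∀ k0 : ℕ, ∃ (k e : ℕ) (n : ι → ℕ), k0 ≤ k ∧ k * (D - ε) ≤ e ∧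
      (e : ℝ) ≤ k * D ∧ (∀ i, k * M i ≤ n i ∧ (n i : ℝ) ≤ k * (M i + ε)) ∧
      ∀ᶠ P in 𝓕, Emp P n (e + 1)) : AMP 𝓕 D M := by
  intro ε hε
  obtain ⟨δ, d0, d1, d2⟩ : ∃ δ : ℝ, 0 < δ ∧ δ ≤ ε / 2 ∧ δ ≤ D / 2 :=
    ⟨min (ε / 2) (D / 2), by positivity, min_le_left _ _, min_le_right _ _⟩
  have hS : 0 ≤ ∑ i, M i := Finset.sum_nonneg fun i _ => hM i
  set S := ∑ i, M i with hSd
  set N : ℝ := (Fintype.card ι : ℝ) with hN
  have hN0 : 0 ≤ N := Nat.cast_nonneg _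
  have hC : 0 < 2 * S + N + 2 * D := by positivity
  obtain ⟨η, e0, e1, e2, e3⟩ : ∃ η : ℝ, 0 < η ∧ η ≤ 1 ∧ η ≤ D / 2 ∧
      η * (2 * S + N + 2 * D) ≤ δ ^ 2 := by
    refine ⟨min (min 1 (D / 2)) (δ ^ 2 / (2 * S + N + 2 * D)), by positivity,
      (min_le_left _ _).trans (min_le_left _ _), (min_le_left _ _).trans (min_le_right _ _), ?_⟩
    rw [← le_div_iff₀ hC]
    exact min_le_right _ _
  obtain ⟨k, e, n, hk, a1, a2, a3, a4⟩ := H η e0 (⌈(S + N) / δ ^ 2⌉₊ + ⌈1 / δ⌉₊)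
  have hk' : ((⌈(S + N) / δ ^ 2⌉₊ : ℝ) + ⌈1 / δ⌉₊) ≤ k := by exact_mod_cast hk
  have k1 : S + N ≤ k * δ ^ 2 := by
    rw [← div_le_iff₀ (by positivity)]
    linarith [Nat.le_ceil ((S + N) / δ ^ 2), (Nat.cast_nonneg _ : (0 : ℝ) ≤ ⌈1 / δ⌉₊)]
  have k2 : 1 ≤ k * δ := by
    rw [← div_le_iff₀ d0]
    linarith [Nat.le_ceil (1 / δ), (Nat.cast_nonneg _ : (0 : ℝ) ≤ ⌈(S + N) / δ ^ 2⌉₊)]
  have k0 : (0 : ℝ) < k := by
    by_contra h
    nlinarith [not_lt.1 h]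
  have g1 : (⌊k * δ⌋₊ : ℝ) ≤ k * δ := Nat.floor_le (by positivity)
  have g2 : k * δ < (⌊k * δ⌋₊ : ℝ) + 1 := Nat.lt_floor_add_one _
  set γ := ⌊k * δ⌋₊ with hγ
  have g3 : γ ≤ e := by
    have : (γ : ℝ) ≤ e := g1.trans (le_trans (mul_le_mul_of_nonneg_left (by linarith) k0.le) a1)
    exact_mod_cast this
  have g4 : ∑ i, (n i + 1).choose 2 < (e + 2).choose 2 + (γ + 1) * (γ + 1) := by
    have b1 : ∀ i, 2 * (((n i + 1).choose 2 : ℕ) : ℝ) ≤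
        k ^ 2 * M i ^ 2 + (2 * k ^ 2 * η + k) * M i + (k ^ 2 * η + k) := by
      intro i
      have c1 := (a3 i).2
      have c0 : (0 : ℝ) ≤ n i := Nat.cast_nonneg _
      have c2 : (n i : ℝ) * (n i + 1) ≤ k * (M i + η) * (k * (M i + η) + 1) :=
        mul_le_mul c1 (by linarith) (by positivity) (c0.trans c1)
      have c3 : k ^ 2 * η * η ≤ k ^ 2 * η * 1 := by gcongr
      have c4 : k * η ≤ k * 1 := by gcongr
      rw [cast_choose]
      linarith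
    have b2 := Finset.sum_le_sum fun i (_ : i ∈ Finset.univ) => b1 i
    rw [← Finset.mul_sum, Finset.sum_add_distrib, Finset.sum_add_distrib, ← Finset.mul_sum,
      ← Finset.mul_sum, Finset.sum_const, Finset.card_univ, nsmul_eq_mul, ← hSd, ← hN] at b2
    have b3 := cast_choose (e + 1)
    push_cast at b3
    have b4 : 0 ≤ k * (D - η) := mul_nonneg k0.le (by linarith)
    have b5 : (k * (D - η)) ^ 2 ≤ (e : ℝ) ^ 2 := by gcongr
    have b6 : (k * δ) ^ 2 < ((γ : ℝ) + 1) ^ 2 := by gcongr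
    have b7 : k ^ 2 * ∑ i, M i ^ 2 ≤ k ^ 2 * D ^ 2 := by gcongr
    have b8 : k ^ 2 * (η * (2 * S + N + 2 * D)) ≤ k ^ 2 * δ ^ 2 := by gcongr
    have b9 : k * (S + N) ≤ k * (k * δ ^ 2) := by gcongr
    have b10 : 0 ≤ (k * η) ^ 2 := sq_nonneg _
    have b11 : (0 : ℝ) ≤ e := Nat.cast_nonneg _
    have : ((∑ i, (n i + 1).choose 2 : ℕ) : ℝ) < ((e + 1 + 1).choose 2 : ℕ) + (γ + 1) * (γ + 1) := by
      rw [Nat.cast_sum]
      have b12 : 0 ≤ (e : ℝ) * e := by positivity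
      linarith
    exact_mod_cast this
  refine ⟨k, e + (γ + 1), fun i => n i - γ, k0, ?_, fun i => ?_, ?_⟩
  · push_cast
    have := mul_le_mul_of_nonneg_left d1 k0.le
    linarith
  · have c1 : (n i : ℝ) - γ ≤ ((n i - γ : ℕ) : ℝ) := by
      have : n i ≤ n i - γ + γ := le_tsub_add
      have : (n i : ℝ) ≤ ((n i - γ : ℕ) : ℝ) + γ := by exact_mod_cast this
      linarith
    have c2 := (a3 i).1
    have c3 := mul_le_mul_of_nonneg_left d1 k0.le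
    have c4 := mul_pos k0 hε
    linarith
  · filter_upwards [a4] with P hP
    obtain ⟨a, h1, h2⟩ := mp_of_emp hP g3 g4
    exact h2.up h1

/-- Emptiness in all degrees below the multiples of a class of nonnegative square. -/
theorem amp_of_emp (hD : 0 < D) (hM : ∀ i, 0 ≤ M i) (hsq : ∑ i, M i ^ 2 ≤ D ^ 2)
    (H : ∀ k e : ℕ, (e : ℝ) < k * D → ∀ᶠ P in 𝓕, Emp P (fun i => ⌈k * M i⌉₊) (e + 1)) :
    AMP 𝓕 D M := by
  refine amp_of_near hD hM hsq fun ε hε k0 => ?_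
  set k := k0 + ⌈1 / ε⌉₊ with hk
  have k1 : 1 ≤ k * ε := by
    rw [← div_le_iff₀ hε, hk]
    push_cast
    linarith [Nat.le_ceil (1 / ε), (Nat.cast_nonneg k0 : (0 : ℝ) ≤ k0)]
  have k2 : (0 : ℝ) < k := by
    by_contra h
    nlinarith [not_lt.1 h]
  obtain ⟨e, he⟩ : ∃ e, ⌈k * D⌉₊ = e + 1 :=
    Nat.exists_eq_succ_of_ne_zero (Nat.ceil_pos.2 (by positivity)).ne'
  have b1 := Nat.le_ceil (k * D)
  have b2 := Nat.ceil_lt_add_one (by positivity : 0 ≤ k * D)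
  rw [he] at b1 b2
  push_cast at b1 b2
  refine ⟨k, e, fun i => ⌈k * M i⌉₊, Nat.le_add_right _ _, by nlinarith, by linarith,
    fun i => ⟨Nat.le_ceil _, ?_⟩, H k e (by linarith)⟩
  have := Nat.ceil_lt_add_one (mul_nonneg k2.le (hM i))
  nlinarith

/-- The same for general points and natural multiplicities. -/
theorem amp_of_ke {M : ι → ℕ} (hD : 0 < D) (hsq : ∑ i, (M i : ℝ) ^ 2 ≤ D ^ 2)
    (H : ∀ k e : ℕ, (e : ℝ) < k * D → KE (tri (e + 1)) (fun i => k * M i) 0) :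
    AMP (genF ι) D fun i => M i := by
  refine amp_of_emp hD (fun i => Nat.cast_nonneg _) hsq fun k e he => ?_
  have h1 : (fun i => ⌈(k : ℝ) * M i⌉₊) = fun i => k * M i := by
    funext i
    rw [← Nat.cast_mul, Nat.ceil_natCast]
  rw [h1]
  exact genF_emp (H k e he)

/-- The vanishing theorem. -/
theorem kv (h : AMP 𝓕 D M) {d : ℕ} {m : ι → ℕ} (hd : D < d + 3) (hm : ∀ i, m i + 1 ≤ M i) :
    ∀ᶠ P in 𝓕, Reach P m (d + 1) := by
  have h4 : (0 : ℝ) < d + 5 := by positivity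
  obtain ⟨θ, a, n, h0, h1, h2, h3⟩ := h ((d + 3 - D) / (d + 5)) (div_pos (by linarith) h4)
  have e0 : 0 < (d + 3 - D) / (d + 5) := div_pos (by linarith) h4
  have e1 : (d + 3 - D) / (d + 5) * (d + 5) = d + 3 - D := by field_simp
  set ε := (d + 3 - D) / (d + 5) with hε
  filter_upwards [h3] with P hP
  refine reach_of_mp hP (θ := θ * (1 - ε)) (h1.trans_lt ?_) fun i => le_trans ?_ (h2 i)
  · rw [mul_assoc]
    exact mul_lt_mul_of_pos_left (by nlinarith) h0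
  · rw [mul_assoc]
    refine mul_le_mul_of_nonneg_left ?_ h0.le
    have := hm i
    have h5 : 0 ≤ ε * m i := by positivity
    nlinarith

/-- The vanishing theorem for general points. -/
theorem kv_ke (h : AMP (genF ι) D M) {d : ℕ} {m : ι → ℕ} (hd : D < d + 3)
    (hm : ∀ i, m i + 1 ≤ M i) : ∑ i, (m i + 1).choose 2 ≤ (d + 2).choose 2 ∧
      KE (tri (d + 1)) m ((d + 2).choose 2 - ∑ i, (m i + 1).choose 2) :=
  ke_of_reach (kv h hd hm)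

end Pool.Agent.P.MP_8707bd_ag.KV
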