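import Mathlib
import Pool.Agent.P.MP_8707bd_ag.KV.Asym
import Pool.Agent.P.MP_8707bd_ag.Small.Fa
import Pool.Agent.P.MP_8707bd_ag.Tate.Tent

/-!
Padding by points of multiplicity zero, and the vanishing theorem for at least ten general points
(helper file only).
-/

namespace Pool.Agent.P.MP_8707bd_ag.KV

open MvPolynomial All Win Ex

variable {ι κ : Type}

theorem genF_tendsto {f : κ → ι} (hf : Function.Injective f) :
    Filter.Tendsto (fun (P : ι → Fin 2 → ℂ) a => P (f a)) (genF ι) (genF κ) := by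
  rintro U ⟨Φ, h0, h⟩
  refine ⟨rename (Prod.map f id) Φ, fun e => h0 (rename_injective _
    (hf.prodMap Function.injective_id) (e.trans (map_zero _).symm)), fun P hP => h _ ?_⟩
  rwa [eval_rename] at hP

theorem AMP.pad {𝓕 : Filter (ι → Fin 2 → ℂ)} {𝓖 : Filter (κ → Fin 2 → ℂ)} {D : ℝ} {M : κ → ℝ}
    (h : AMP 𝓖 D M) {f : κ → ι} (hf : Function.Injective f)
    (ht : Filter.Tendsto (fun (P : ι → Fin 2 → ℂ) a => P (f a)) 𝓕 𝓖) :
    AMP 𝓕 D (Function.extend f M 0) := fun ε hε => by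
  obtain ⟨θ, a, n, h0, h1, h2, h3⟩ := h ε hε
  refine ⟨θ, a, Function.extend f n 0, h0, h1, fun i => ?_, ?_⟩
  · by_cases hi : ∃ b, f b = i
    · obtain ⟨b, rfl⟩ := hi
      rw [hf.extend_apply, hf.extend_apply]
      exact h2 b
    · rw [Function.extend_apply' _ _ _ hi, Function.extend_apply' _ _ _ hi]
      have := mul_pos h0 hε
      simp only [Pi.zero_apply, Nat.cast_zero]
      linarith
  · filter_upwards [ht.eventually h3] with P hP c
    obtain ⟨F, k1, k2⟩ := hP c
    refine ⟨F, k1, fun i => ?_⟩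
    by_cases hi : ∃ b, f b = i
    · obtain ⟨b, rfl⟩ := hi
      rw [hf.extend_apply]
      exact k2 b
    · rw [Function.extend_apply' _ _ _ hi]
      simp

/-- A class on the points `f a` is a class on all points. -/
theorem AMP.pad_gen {D : ℝ} {M : κ → ℝ} (h : AMP (genF κ) D M) {f : κ → ι}
    (hf : Function.Injective f) : AMP (genF ι) D (Function.extend f M 0) :=
  h.pad hf (genF_tendsto hf)

theorem ke_nagata {r m d : ℕ} (hr : 10 ≤ r) (hm : 1 ≤ m) (hd : d ^ 2 ≤ r * m ^ 2) :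
    KE (tri (d + 1)) (fun _ : Fin r => m) 0 := by
  obtain ⟨Φ, h0, hΦ⟩ := Tate.nagata r m d hr hm hd
  obtain ⟨Ψ, h1, hΨ⟩ := Small.exists_gen r 0
  obtain ⟨p, hp⟩ := Small.exists_pt_fa (Φ * Ψ) (mul_ne_zero h0 h1)
  rw [map_mul, mul_ne_zero_iff] at hp
  have h2 := hΦ p hp.1
  rw [Small.fat_eq_fz (hΨ p hp.2).1] at h2
  refine Small.ke_of_hh_le ((Small.hh_le p _).trans ?_)
  rw [h2, finrank_bot]

theorem amp_nagata {r : ℕ} (hr : 10 ≤ r) : AMP (genF (Fin r)) √r fun _ => 1 := by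
  have h0 : (0 : ℝ) < r := by exact_mod_cast (by omega : 0 < r)
  have h1 := amp_of_ke (ι := Fin r) (D := √r) (M := fun _ => 1) (Real.sqrt_pos.2 h0)
    (by simp [Real.sq_sqrt h0.le]) fun k e he => by
      have h2 : (e : ℝ) ^ 2 ≤ (k * √r) ^ 2 := by gcongr
      rw [mul_pow, Real.sq_sqrt h0.le, mul_comm] at h2
      rw [mul_one]
      refine ke_nagata hr (Nat.pos_of_ne_zero ?_) (by exact_mod_cast h2)
      rintro rfl
      rw [Nat.cast_zero, zero_mul] at he
      exact absurd he (not_lt.2 (Nat.cast_nonneg e))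
  simpa using h1

/-- The expected dimension above the window. -/
theorem ke_upper {r m d : ℕ} (hr : 10 ≤ r) (hd : √r * (m + 1) < (d : ℝ) + 3) :
    KE (tri (d + 1)) (fun _ : Fin r => m) ((d + 2).choose 2 - r * (m + 1).choose 2) := by
  have h1 := (amp_nagata hr).smul (c := m + 1) (by positivity)
  have h2 := (kv_ke h1 (m := fun _ => m) (by rwa [mul_comm]) fun _ => (mul_one _).ge).2
  simpa using h2

end Pool.Agent.P.MP_8707bd_ag.KV
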